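import Pool.Agent.Y240.Gr.Rea

set_option autoImplicit false

namespace Pool.Agent.Results.MP_4f6c32_ag.EveryRankAboveEight

open Pool.Agent.W517.Gr

/-- The form `c_m(E, h)` at `z` for an integer `m`: `1` for `m = 0`, and `0` for `m < 0` and for
`m > r`. -/
noncomputable def chernZ {n r : ℕ} (h : Cn n → Matrix (Fin r) (Fin r) ℂ) (z : Cn n) (m : ℤ) :
    FormAlg n :=
  if m = 0 then 1 else if m < 0 ∨ (r : ℤ) < m then 0 else chernForm h m.toNat z

/-- The Schur form `s_λ(c(E, h)) = det [c_{λ_j - j + l}]_{1 ≤ j, l ≤ k}` at `z`. -/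
noncomputable def schurForm {n r k : ℕ} (h : Cn n → Matrix (Fin r) (Fin r) ℂ) (lam : Fin k → ℕ)
    (z : Cn n) : FormAlg n :=
  (Matrix.of fun j l : Fin k => chernZ h z ((lam j : ℤ) - (j : ℕ) + (l : ℕ))).det

/-- The partition `(9, 1, …, 1, 0, …, 0)` of `k ≥ 9` with `k - 9` ones, and `(8, 0, …, 0)` for
`k = 8`. -/
def hookPartition (k : ℕ) (j : Fin k) : ℕ :=
  if (j : ℕ) = 0 then (if k = 8 then 8 else 9) else if (j : ℕ) + 8 < k then 1 else 0

theorem chernZ_eq {n r : ℕ} (h : Cn n → Matrix (Fin r) (Fin r) ℂ) (z : Cn n) (m : ℤ) :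
    chernZ h z m = Pool.Agent.Y240.Gr.cz ((Complex.I / (2 * Real.pi)) • curvatureForm h z) m := by
  unfold chernZ Pool.Agent.Y240.Gr.cz
  by_cases h0 : m = 0
  · subst h0
    rw [if_pos rfl, if_pos le_rfl, Int.toNat_zero, Pool.Agent.Y240.Gr.cc_zero]
  · rw [if_neg h0]
    by_cases h1 : m < 0
    · rw [if_pos (Or.inl h1), if_neg (not_le.2 h1)]
    · rw [if_pos (not_lt.1 h1)]
      by_cases h2 : (r : ℤ) < m
      · rw [if_pos (Or.inr h2), Pool.Agent.Y240.Gr.cc_gt]
        rw [Fintype.card_fin]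
        omega
      · rw [if_neg (not_or.2 ⟨h1, h2⟩)]
        rfl

theorem schurForm_eq {n r k : ℕ} (h : Cn n → Matrix (Fin r) (Fin r) ℂ) (lam : Fin k → ℕ)
    (z : Cn n) : schurForm h lam z =
      Pool.Agent.Y240.Gr.schur ((Complex.I / (2 * Real.pi)) • curvatureForm h z) lam := by
  unfold schurForm Pool.Agent.Y240.Gr.schur
  congr 1
  ext j l
  rw [Matrix.of_apply, Matrix.of_apply, chernZ_eq]

theorem hookPartition_eq (k' : ℕ) : hookPartition (8 + k') = Pool.Agent.Y240.Gr.hook k' := by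
  funext j
  unfold hookPartition Pool.Agent.Y240.Gr.hook
  have h1 : (8 + k' = 8) ↔ (k' = 0) := by omega
  have h2 : ((j : ℕ) + 8 < 8 + k') ↔ ((j : ℕ) < k') := by omega
  simp only [h1, h2]

theorem sum_hookPartition {k : ℕ} (hk : 8 ≤ k) : ∑ j, hookPartition k j = k := by
  obtain ⟨m, rfl⟩ : ∃ m, k = m + 1 := ⟨k - 1, by omega⟩
  rw [Fin.sum_univ_succ]
  have h0 : hookPartition (m + 1) 0 = if m + 1 = 8 then 8 else 9 := by simp [hookPartition]
  have h1 : ∀ j : Fin m, hookPartition (m + 1) j.succ = if (j : ℕ) + 8 < m then 1 else 0 := by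
    intro j
    unfold hookPartition
    rw [Fin.val_succ, if_neg (Nat.succ_ne_zero _)]
    have : ((j : ℕ) + 1 + 8 < m + 1) ↔ ((j : ℕ) + 8 < m) := by omega
    simp only [this]
  rw [h0, Finset.sum_congr rfl fun j _ => h1 j, Finset.sum_ite, Finset.sum_const_zero, add_zero,
    Finset.sum_const, smul_eq_mul, mul_one]
  have h2 : (Finset.univ.filter fun j : Fin m => (j : ℕ) + 8 < m).card = m - 8 := by
    have : (Finset.univ.filter fun j : Fin m => (j : ℕ) + 8 < m).card = (Finset.range (m - 8)).card := by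
      refine Finset.card_bij (fun j _ => (j : ℕ)) ?_ ?_ ?_
      · intro j hj
        rw [Finset.mem_filter] at hj
        rw [Finset.mem_range]
        omega
      · intro i _ j _ h
        exact Fin.ext h
      · intro b hb
        rw [Finset.mem_range] at hb
        exact ⟨⟨b, by omega⟩, Finset.mem_filter.2 ⟨Finset.mem_univ _, by simp only; omega⟩, rfl⟩
    rw [this, Finset.card_range]
  rw [h2]
  split_ifs <;> omega

/-- **Griffiths' conjecture on Schur forms fails on projective space in every rank `r ≥ 9` and in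
every degree `k ≥ 8`.**

Let `k ≥ 8` and let `r ≥ 9` (or `r = k = 8`). Then `λ = (9, 1, …, 1)` (for `k = 8`: `λ = (8)`) is in
`Λ(k, r)`, and for every real `M` there is a smooth Hermitian metric `h` on the holomorphic vector
bundle `E = O(1)^r` over `ℙᵏ` such that `(E, h)` is Griffiths positive everywhere, while the Schur
form `s_λ(c(E, h))`, a form of top degree, takes a real value less than `-M` on the positively
oriented real frame `(e_1, i e_1, …, e_k, i e_k)` of the tangent space at the point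
`[1 : 0 : ⋯ : 0]`; in particular (for `M ≥ 0`) it is not positive there. -/
theorem result (r k : ℕ) (hk : 8 ≤ k) (hr : 9 ≤ r ∨ (r = 8 ∧ k = 8)) :
    Antitone (hookPartition k) ∧ (∀ j, hookPartition k j ≤ r) ∧ ∑ j, hookPartition k j = k ∧
    ∀ M : ℝ, ∃ h : Cn (k + 1) → Matrix (Fin r) (Fin r) ℂ, IsMetricOnO1 h ∧
      (∀ (i : Fin (k + 1)) (w : Cn k), GriffithsPositiveAt (inChart i h) w) ∧
      (0 ≤ M → ¬ IsPositiveForm k (schurForm (inChart 0 h) (hookPartition k) 0)) ∧
      (evalForm (realFrame fun i : Fin k => (Pi.single i 1 : Cn k))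
        (schurForm (inChart 0 h) (hookPartition k) 0).1).re < -M ∧
      (evalForm (realFrame fun i : Fin k => (Pi.single i 1 : Cn k))
        (schurForm (inChart 0 h) (hookPartition k) 0).1).im = 0 := by
  refine ⟨?_, ?_, sum_hookPartition hk, fun M => ?_⟩
  · intro i j hij
    have : (i : ℕ) ≤ j := hij
    unfold hookPartition
    split_ifs <;> omega
  · intro j
    unfold hookPartition
    split_ifs <;> omega
  · obtain ⟨r', rfl⟩ : ∃ r', r = 8 + r' := ⟨r - 8, by omega⟩
    obtain ⟨k', rfl⟩ : ∃ k', k = 8 + k' := ⟨k - 8, by omega⟩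
    obtain ⟨h, h1, h2, h3, h4⟩ := Pool.Agent.Y240.Gr.exists_all_real r' k' (by omega) M
    rw [← hookPartition_eq, ← schurForm_eq, Pool.Agent.Y240.Gr.LL_apply] at h3 h4
    exact ⟨h, h1, h2, fun hM => not_positive_of_neg _ (by linarith), h3, h4⟩

end Pool.Agent.Results.MP_4f6c32_ag.EveryRankAboveEight
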